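import Pool.Agent.Lib.MP_a45bfb_lc.FamUp

/-!
# MP_a45bfb_lc: Q1 rank by rank, and sequences of graphs of bounded rank

Q1 for the graphs with all components of rank at most `δ` is equivalent to the
well-quasi-ordering, by domination, of the sequences of graphs of rank at most `δ`.
-/

namespace Pool.Agent.Results.MP_a45bfb_lc.ComponentRanks

open Ordinal
open Pool.Agent.Lib.MP_a45bfb_lc

theorem result :
    (∀ δ : Ordinal.{0}, 1 ≤ δ → δ < ω₁ →
      (QuestionFor (CompRankLE δ) ↔ FamiliesWQO (RankLE δ))) ∧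
    ∀ δ : Ordinal.{0}, RankLE δ ⊆ CompRankLE δ ∧ CompRankLE δ ⊆ RankLE (δ + 1) :=
  ⟨fun _ h1 hδ => questionFor_comp_iff h1 hδ,
    fun δ => ⟨rankLE_sub_comp δ, comp_sub_rankLE δ⟩⟩

end Pool.Agent.Results.MP_a45bfb_lc.ComponentRanks
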