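import Pool.Agent.Lib.MP_a45bfb_lc.HGMain

/-!
# MP_a45bfb_lc: Q1 and hereditarily countable families of graphs

Q1 is equivalent to the well-quasi-ordering of the hereditarily countable families of rayless
graphs on `ℕ`, and hence implies the well-quasi-ordering of the hereditarily countable families of
finite graphs.
-/

namespace Pool.Agent.Results.MP_a45bfb_lc.Families

open Pool.Agent.Lib.MP_a45bfb_lc

theorem result :
    (QuestionFor Set.univ ↔ RaylessHWQO) ∧ (QuestionFor Set.univ → FiniteHWQO) :=
  ⟨question_iff_H, fun h => finite_of_rayless (question_iff_H.1 h)⟩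

end Pool.Agent.Results.MP_a45bfb_lc.Families
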