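import Pool.Agent.Lib.MP_a45bfb_lc.SepMain

/-!
# MP_a45bfb_lc: the first level of Q1 as a question on classes of finite graphs

For every `n`, Q1 for the graphs on `ℕ` that lose all infinite components when some set of at most
`n` vertices is deleted is equivalent to the well-quasi-ordering, by inclusion, of the down-closed
classes of finite pieces with `n` roots. For `n = 0` these are the minor-closed classes of finite
graphs.
-/

namespace Pool.Agent.Results.MP_a45bfb_lc.RankOne

open Ordinal
open Pool.Agent.Lib.MP_a45bfb_lc

/-- The graphs of rank at most one are the union of the classes `Sep n`. Q1 for `Sep n` holds if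
and only if the down-closed classes of finite pieces with `n` roots are well-quasi-ordered by
inclusion; for `n = 0` this says that the minor-closed classes of finite graphs are
well-quasi-ordered by inclusion, which contains the graph minor theorem. -/
theorem result :
    RankLE 1 = ⋃ n, Sep n ∧
    (∀ n, QuestionFor (Sep n) ↔ DownWQO (RootedMinor (n := n))) ∧
    (QuestionFor (RankLE 1) → ∀ n, DownWQO (RootedMinor (n := n))) ∧
    (QuestionFor (Sep 0) ↔ ClassesWQO) ∧ (ClassesWQO → GraphMinorTheorem) := by
  refine ⟨rankLE_one_eq, questionFor_Sep_iff, ?_, ?_, gmt_of_classes⟩
  · intro h n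
    exact (questionFor_Sep_iff n).1 fun C hC => h C (hC.trans (sep_sub n))
  · rw [sep_zero]
    exact questionFor_FinComp.trans wqo_FinComp_iff

end Pool.Agent.Results.MP_a45bfb_lc.RankOne
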