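import Pool.Agent.Lib.MP_a45bfb_lc.Main

/-!
# MP_a45bfb_lc: what the Borel hypothesis on rank slices gives

`QuestionFor Set.univ` is Q1 of the problem. Every `Rank_α` with `α < ω₁` is Borel
(`borel_Rank`), hence Q1 is equivalent to the well-quasi-ordering of all rayless graphs on `ℕ`,
also rank by rank.
-/

namespace Pool.Agent.Results.MP_a45bfb_lc.RankSlices

open Ordinal
open Pool.Agent.Lib.MP_a45bfb_lc

theorem result :
    [QuestionFor Set.univ,
     ∀ C : Set (SimpleGraph ℕ), (∀ G ∈ C, Rayless G) → MinorClosed C → IsBorel C → IsWQO C,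
     ∀ δ < ω₁, QuestionFor (RankLE δ),
     ∀ δ < ω₁, IsWQO (RankLE δ),
     IsWQO {G : SimpleGraph ℕ | Rayless G}].TFAE ∧
    ∀ δ < ω₁, (QuestionFor (RankLE δ) ↔ IsWQO (RankLE δ)) :=
  ⟨tfae_main, fun _ hδ => questionFor_rankLE hδ⟩

end Pool.Agent.Results.MP_a45bfb_lc.RankSlices
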